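import Pool.Agent.HomC.Omega
import Pool.Agent.HomC.Cover
import Pool.Agent.HomC.UE
import Pool.Prelude.Def_F_057ad941

/-!
# MP_2f18f1_gt: continuous images of homogeneous compacta
-/

open Set Topology

namespace Pool.Agent.Results.MP_2f18f1_gt.HomogeneousImages

/-- First countable spaces with a base of at most `ℵ₁` sets. -/
def WeightAlephOne (L : Type) [TopologicalSpace L] : Prop :=
  FirstCountableTopology L ∧ ∃ B : Set (Set L),
    TopologicalSpace.IsTopologicalBasis B ∧ Cardinal.mk B ≤ Cardinal.aleph 1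

/-- First countable spaces with a separating family of closed covers `F i ∪ G i = L` such that
every point lies in only countably many of the sets `F i ∩ G i`. -/
def ThinCovers (L : Type) [TopologicalSpace L] : Prop :=
  FirstCountableTopology L ∧ ∃ (I : Type) (F G : I → Set L),
    (∀ i, IsClosed (F i) ∧ IsClosed (G i) ∧ F i ∪ G i = univ) ∧
    (∀ x y, x ≠ y → ∃ i, ¬ (x ∈ F i ∧ y ∈ F i) ∧ ¬ (x ∈ G i ∧ y ∈ G i)) ∧
    ∀ x, {i | x ∈ F i ∩ G i}.Countable

/-- First countable Corson spaces. -/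
def CorsonFirstCountable (L : Type) [TopologicalSpace L] : Prop :=
  FirstCountableTopology L ∧ ∃ (Γ : Type) (φ : L → Γ → ℝ), Continuous φ ∧
    Function.Injective φ ∧ ∀ x, {γ | φ x γ ≠ 0}.Countable

/-- First countable linearly ordered spaces. -/
def OrderedFirstCountable (L : Type) [TopologicalSpace L] : Prop :=
  FirstCountableTopology L ∧ ∃ _ : LinearOrder L, OrderTopology L

/-- Uniform Eberlein spaces of weight at most the continuum, that is, spaces which embed into the
unit ball of the Hilbert space `ℓ₂(Γ)` with its weak topology, where `|Γ| ≤ 𝔠`. -/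
def UniformEberlein (L : Type) [TopologicalSpace L] : Prop :=
  ∃ (Γ : Type) (φ : L → Γ → ℝ), Cardinal.mk Γ ≤ Cardinal.continuum ∧ Continuous φ ∧
    Function.Injective φ ∧ ∀ (x : L) (F : Finset Γ), ∑ γ ∈ F, φ x γ ^ 2 ≤ 1

/-- The building blocks. -/
def Block (L : Type) [TopologicalSpace L] : Prop :=
  WeightAlephOne L ∨ ThinCovers L ∨ CorsonFirstCountable L ∨ OrderedFirstCountable L ∨
    (FirstCountableTopology L ∧ TotallyDisconnectedSpace L) ∨ UniformEberlein L

theorem block_zi {L : Type} [TopologicalSpace L] [CompactSpace L] [T2Space L] (h : Block L) :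
    HomC.ZI L := by
  rcases h with h | h | h | h | h | h
  · obtain ⟨hfc, B, hB, hc⟩ := h
    exact HomC.zi_weight B hB hc
  · obtain ⟨hfc, I, F, G, hFG, hsep, hpc⟩ := h
    refine HomC.cover_main F G (fun i => (hFG i).1) (fun i => (hFG i).2.1) (fun i x => ?_)
      hsep hpc
    have : x ∈ F i ∪ G i := by rw [(hFG i).2.2]; exact mem_univ x
    exact this
  · obtain ⟨hfc, Γ, φ, hφ, hinj, hc⟩ := h
    exact HomC.zi_corson φ hφ hinj hc
  · obtain ⟨hfc, hlo, hot⟩ := h
    exact HomC.zi_lots
  · obtain ⟨hfc, htd⟩ := h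
    exact HomC.zi_self
  · obtain ⟨Γ, φ, hΓ, hφ, hinj, hsum⟩ := h
    have h1 : Cardinal.mk (ℕ → Bool) = Cardinal.continuum := by simp
    rw [← h1] at hΓ
    obtain ⟨ι⟩ : Nonempty (Γ ↪ (ℕ → Bool)) := hΓ
    have hbd : ∀ x γ, |φ x γ| ≤ 1 := by
      intro x γ
      have h2 := hsum x {γ}
      rw [Finset.sum_singleton] at h2
      exact abs_le_one_iff_mul_self_le_one.2 (by rw [← sq]; exact h2)
    refine HomC.zi_ue ι ι.injective φ hφ hinj hbd (fun ε hε => ?_)
    obtain ⟨N, hN⟩ := exists_nat_ge (1 / ε ^ 2)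
    refine ⟨N, fun x F hF => ?_⟩
    have h3 : (F.card : ℝ) * ε ^ 2 ≤ 1 := by
      have h4 : ∑ γ ∈ F, ε ^ 2 ≤ ∑ γ ∈ F, φ x γ ^ 2 := by
        refine Finset.sum_le_sum (fun γ hγ => ?_)
        rw [← sq_abs (φ x γ)]
        exact pow_le_pow_left₀ hε.le (hF γ hγ).le 2
      rw [Finset.sum_const, nsmul_eq_mul] at h4
      exact h4.trans (hsum x F)
    have h5 : (F.card : ℝ) ≤ 1 / ε ^ 2 := by
      rw [le_div_iff₀ (by positivity)]
      exact h3
    exact_mod_cast h5.trans hN

/-- Every continuous image of an arbitrary product of compacta `K i`, each of which is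
homeomorphic to a closed subspace of a countable product of compact building blocks, is a
continuous image of a homogeneous compactum. -/
theorem result (ι : Type) (K : ι → Type) [∀ i, TopologicalSpace (K i)]
    (hK : ∀ i, ∃ (L : ℕ → Type) (_ : ∀ n, TopologicalSpace (L n)) (g : K i → ∀ n, L n),
      (∀ n, CompactSpace (L n) ∧ T2Space (L n) ∧ Block (L n)) ∧ IsClosedEmbedding g)
    (X : Type) [TopologicalSpace X] (f : (∀ i, K i) → X) (hf : Continuous f)
    (hs : Function.Surjective f) :
    ∃ (Y : Type) (_ : TopologicalSpace Y), CompactSpace Y ∧ T2Space Y ∧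
      N4f246296.HomogeneousSpace Y ∧ ∃ g : Y → X, Continuous g ∧ Function.Surjective g := by
  have h1 : ∀ i, HomC.Hom (K i) := by
    intro i
    obtain ⟨L, tL, g, hL, hg⟩ := hK i
    have h2 : ∀ n, HomC.ZI (L n) := by
      intro n
      obtain ⟨hc, ht, hb⟩ := hL n
      exact block_zi hb
    exact HomC.hom_of_zi (HomC.zi_closed (HomC.zi_pi h2) g hg)
  exact HomC.hom_image (HomC.hom_pi h1) f hf hs

end Pool.Agent.Results.MP_2f18f1_gt.HomogeneousImages
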